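import Pool.Agent.Y6.F.Stm2
import Pool.Agent.Y331.EF.Scale

set_option autoImplicit false

/-! # Dilation of solutions (job EF-DIL) -/

open Set Filter Topology
open scoped ComplexConjugate

namespace Pool.Agent.Y438.EF.DIL

open Pool.Agent.Y6.M (Z3 C3 Coef dt cr cj kc nsq len adv leray Kop IsField IsSol energy enstr)
open Pool.Agent.Y331.EF.SCALE (dt_smul_right dt_smul_left cr_smul_right leray_smul)

/-! ### Multiples of `L` -/

/-- the vector `L k` -/
def mk (L : ℕ) (k : Z3) : Z3 := fun j => (L : ℤ) * k j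

/-- all coordinates are multiples of `L` -/
def Dv (L : ℕ) (k : Z3) : Prop := ∀ j, (L : ℤ) ∣ k j

/-- the quotient -/
def qt (L : ℕ) (k : Z3) : Z3 := fun j => k j / (L : ℤ)

theorem Dv_mk (L : ℕ) (k : Z3) : Dv L (mk L k) := fun _ => Dvd.intro _ rfl

theorem qt_mk {L : ℕ} (hL : 0 < L) (k : Z3) : qt L (mk L k) = k := by
  funext j
  exact Int.mul_ediv_cancel_left _ (by exact_mod_cast hL.ne')

theorem mk_qt {L : ℕ} {k : Z3} (h : Dv L k) : mk L (qt L k) = k := by
  funext j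
  exact Int.mul_ediv_cancel' (h j)

theorem cases_mk {L : ℕ} (k : Z3) : (∃ k', k = mk L k') ∨ ¬ Dv L k := by
  by_cases h : Dv L k
  · exact Or.inl ⟨_, (mk_qt h).symm⟩
  · exact Or.inr h

theorem mk_zero (L : ℕ) : mk L 0 = 0 := by
  funext j
  simp [mk]

theorem mk_neg (L : ℕ) (k : Z3) : mk L (-k) = -mk L k := by
  funext j
  simp [mk]

theorem mk_sub (L : ℕ) (k p : Z3) : mk L (k - p) = mk L k - mk L p := by
  funext j
  simp [mk, mul_sub]

theorem mk_inj {L : ℕ} (hL : 0 < L) : Function.Injective (mk L) := by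
  intro a b h
  rw [← qt_mk hL a, h, qt_mk hL]

theorem Dv_neg {L : ℕ} {k : Z3} : Dv L (-k) ↔ Dv L k := by
  unfold Dv
  simp

theorem kc_mk (L : ℕ) (k : Z3) : kc (mk L k) = fun j => (L : ℂ) * kc k j := by
  funext j
  simp [kc, mk]

theorem nsq_mk (L : ℕ) (k : Z3) : nsq (mk L k) = (L : ℤ) ^ 2 * nsq k := by
  unfold nsq mk
  rw [Finset.mul_sum]
  exact Finset.sum_congr rfl fun j _ => by ring

theorem len_mk (L : ℕ) (k : Z3) : len (mk L k) = (L : ℝ) * len k := by
  unfold len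
  rw [nsq_mk]
  push_cast
  rw [Real.sqrt_mul (by positivity), Real.sqrt_sq (by positivity)]

theorem nsq_nonneg (k : Z3) : 0 ≤ nsq k := Finset.sum_nonneg fun _ _ => sq_nonneg _

theorem nsq_pos {k : Z3} (hk : k ≠ 0) : 1 ≤ nsq k := by
  by_contra hcon
  push Not at hcon
  have h0 : nsq k = 0 := le_antisymm (by omega) (nsq_nonneg k)
  apply hk
  funext j
  have h1 := (Finset.sum_eq_zero_iff_of_nonneg fun j _ => sq_nonneg (k j)).1 h0 j
    (Finset.mem_univ j)
  exact pow_eq_zero_iff two_ne_zero |>.1 h1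

theorem len_nonneg (k : Z3) : 0 ≤ len k := Real.sqrt_nonneg _

theorem len_sq (k : Z3) : len k ^ 2 = (nsq k : ℝ) :=
  Real.sq_sqrt (by exact_mod_cast nsq_nonneg k)

theorem one_le_len {k : Z3} (hk : k ≠ 0) : 1 ≤ len k := by
  unfold len
  rw [Real.one_le_sqrt]
  exact_mod_cast nsq_pos hk

/-! ### Dilated fields -/

open Classical in
/-- the field `V(L x) / L` -/
noncomputable def ds (L : ℕ) (V : Coef) : Coef := fun k j =>
  if Dv L k then ((L : ℝ) : ℂ)⁻¹ * V (qt L k) j else 0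

open Classical in
/-- the dilated multiplier -/
noncomputable def dm (L : ℕ) (m : Z3 → ℝ) : Z3 → ℝ := fun k => if Dv L k then m (qt L k) else 0

theorem ds_mk {L : ℕ} (hL : 0 < L) (V : Coef) (k : Z3) :
    ds L V (mk L k) = fun j => ((L : ℝ) : ℂ)⁻¹ * V k j := by
  funext j
  unfold ds
  rw [if_pos (Dv_mk L k), qt_mk hL]

theorem ds_not {L : ℕ} (V : Coef) {k : Z3} (h : ¬ Dv L k) : ds L V k = 0 := by
  funext j
  unfold ds
  rw [if_neg h]
  rfl

theorem dm_mk {L : ℕ} (hL : 0 < L) (m : Z3 → ℝ) (k : Z3) : dm L m (mk L k) = m k := by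
  unfold dm
  rw [if_pos (Dv_mk L k), qt_mk hL]

theorem dm_not {L : ℕ} (m : Z3 → ℝ) {k : Z3} (h : ¬ Dv L k) : dm L m k = 0 := by
  unfold dm
  rw [if_neg h]

theorem dm_neg {L : ℕ} (hL : 0 < L) {m : Z3 → ℝ} (hm : ∀ k, m (-k) = -m k) (k : Z3) :
    dm L m (-k) = -dm L m k := by
  rcases cases_mk (L := L) k with ⟨k', rfl⟩ | h
  · rw [← mk_neg, dm_mk hL, dm_mk hL, hm]
  · rw [dm_not m h, dm_not m (fun h' => h (Dv_neg.1 h')), neg_zero]

theorem dt_zero_left (b : C3) : dt 0 b = 0 := by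
  unfold dt
  simp

theorem dt_zero_right (b : C3) : dt b 0 = 0 := by
  unfold dt
  simp

theorem cr_zero (a : C3) : cr a 0 = 0 := by
  funext j
  fin_cases j <;> simp [cr]

theorem cr_smul_left (l : ℂ) (a b : C3) (j : Fin 3) :
    cr (fun j => l * a j) b j = l * cr a b j := by
  fin_cases j <;> simp [cr] <;> ring

section

variable {L : ℕ} (hL : 0 < L)
include hL

theorem hLC : ((L : ℝ) : ℂ) ≠ 0 := by exact_mod_cast hL.ne'

theorem field_ds {V : Coef} (h : IsField V) : IsField (ds L V) where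
  zero := by
    have e : (0 : Z3) = mk L 0 := (mk_zero L).symm
    rw [e, ds_mk hL, h.zero]
    funext j
    simp
  real := by
    intro k j
    rcases cases_mk (L := L) k with ⟨k', rfl⟩ | h'
    · rw [← mk_neg, ds_mk hL, ds_mk hL]
      simp only
      rw [h.real, map_mul, map_inv₀, Complex.conj_ofReal]
    · rw [ds_not V h', ds_not V (fun h'' => h' (Dv_neg.1 h''))]
      simp
  div := by
    intro k
    rcases cases_mk (L := L) k with ⟨k', rfl⟩ | h'
    · rw [ds_mk hL, kc_mk, dt_smul_right, dt_smul_left, h.div, mul_zero, mul_zero]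
    · rw [ds_not V h', dt_zero_right]
  smooth := by
    intro q
    obtain ⟨M, hM⟩ := h.smooth q
    have hM0 : 0 ≤ M := (mul_nonneg (pow_nonneg (len_nonneg 0) q) (norm_nonneg _)).trans (hM 0 0)
    have hL' : (0 : ℝ) < L := by exact_mod_cast hL
    refine ⟨(L : ℝ) ^ q * M, fun k j => ?_⟩
    rcases cases_mk (L := L) k with ⟨k', rfl⟩ | h'
    · rw [ds_mk hL, len_mk]
      simp only
      rw [norm_mul, norm_inv, Complex.norm_real, Real.norm_eq_abs, abs_of_pos hL', mul_pow]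
      have hL1 : (L : ℝ)⁻¹ ≤ 1 := inv_le_one_of_one_le₀ (by exact_mod_cast hL)
      have h1 : 0 ≤ len k' ^ q * ‖V k' j‖ := mul_nonneg (pow_nonneg (len_nonneg _) _) (norm_nonneg _)
      calc (L : ℝ) ^ q * len k' ^ q * ((L : ℝ)⁻¹ * ‖V k' j‖) =
          (L : ℝ) ^ q * ((L : ℝ)⁻¹ * (len k' ^ q * ‖V k' j‖)) := by ring
        _ ≤ (L : ℝ) ^ q * (1 * (len k' ^ q * ‖V k' j‖)) := by gcongr
        _ ≤ (L : ℝ) ^ q * M := by
          rw [one_mul]
          gcongr
          exact hM k' j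
    · rw [ds_not V h']
      simp only [Pi.zero_apply, norm_zero, mul_zero]
      positivity

theorem adv_mk (V : Coef) (k : Z3) (j : Fin 3) :
    adv (ds L V) (mk L k) j = ((L : ℝ) : ℂ)⁻¹ * adv V k j := by
  have hLC := hLC hL
  rw [adv, adv, ← tsum_mul_left]
  rw [← (mk_inj hL).tsum_eq]
  · refine tsum_congr fun p => ?_
    rw [← mk_sub, ds_mk hL, ds_mk hL, kc_mk, dt_smul_right, dt_smul_left]
    push_cast at hLC ⊢
    field_simp
  · intro p hp
    rcases cases_mk (L := L) p with ⟨p', rfl⟩ | h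
    · exact ⟨p', rfl⟩
    · exfalso
      apply hp
      simp only
      rw [ds_not V h, dt_zero_left]
      simp

omit hL in
theorem adv_not (V : Coef) {k : Z3} (hk : ¬ Dv L k) : adv (ds L V) k = 0 := by
  funext j
  rw [adv]
  refine (tsum_congr fun p => ?_).trans tsum_zero
  by_cases h : Dv L p
  · have h1 : ¬ Dv L (k - p) := by
      intro h2
      apply hk
      intro i
      have := (h2 i).add (h i)
      simpa using this
    rw [ds_not V h1]
    simp
  · rw [ds_not V h, dt_zero_left]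
    simp

theorem leray_mk (k : Z3) (w : C3) (j : Fin 3) : leray (mk L k) w j = leray k w j := by
  have hLC := hLC hL
  rw [leray, leray, kc_mk, dt_smul_left, nsq_mk]
  congr 1
  push_cast
  have h2 : ((L : ℂ)) ^ 2 ≠ 0 := by
    push_cast at hLC
    exact pow_ne_zero 2 hLC
  rw [div_mul_eq_mul_div, div_mul_eq_mul_div]
  have e : (L : ℂ) * dt (kc k) w * ((L : ℂ) * kc k j) = (L : ℂ) ^ 2 * (dt (kc k) w * kc k j) := by
    ring
  rw [e, mul_div_mul_left _ _ h2]

theorem kop_mk (m n : Z3 → ℝ) (V : Coef) (k : Z3) (j : Fin 3) :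
    Kop (dm L m) (dm L n) (ds L V) (mk L k) j = ((L : ℝ) : ℂ)⁻¹ * Kop m n V k j := by
  have hLC := hLC hL
  rw [Kop, Kop, dm_mk hL, dm_mk hL, ds_mk hL, len_mk, kc_mk, cr_smul_left, cr_smul_right]
  push_cast at hLC ⊢
  field_simp

theorem rhs_mk (m n : Z3 → ℝ) (V : Coef) (k : Z3) (j : Fin 3) :
    Kop (dm L m) (dm L n) (ds L V) (mk L k) j - leray (mk L k) (adv (ds L V) (mk L k)) j =
      ((L : ℝ) : ℂ)⁻¹ * (Kop m n V k j - leray k (adv V k) j) := by
  have e : adv (ds L V) (mk L k) = fun j => ((L : ℝ) : ℂ)⁻¹ * adv V k j :=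
    funext fun j => adv_mk hL V k j
  rw [kop_mk hL, leray_mk hL, e, leray_smul]
  ring

omit hL in
theorem rhs_not (m n : Z3 → ℝ) (V : Coef) {k : Z3} (hk : ¬ Dv L k) (j : Fin 3) :
    Kop (dm L m) (dm L n) (ds L V) k j - leray k (adv (ds L V) k) j = 0 := by
  rw [Kop, leray, adv_not V hk, ds_not V hk, cr_zero, dt_zero_right]
  simp

theorem sol_ds {m n : Z3 → ℝ} {T : ℝ} {V : ℝ → Coef} (h : IsSol m n T V) :
    IsSol (dm L m) (dm L n) T (fun t => ds L (V t)) where
  field := fun t ht => field_ds hL (h.field t ht)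
  reg := by
    intro q T' hT'
    obtain ⟨M, hM⟩ := h.reg q T' hT'
    have hL' : (0 : ℝ) < L := by exact_mod_cast hL
    refine ⟨(L : ℝ) ^ q * |M|, fun t ht k j => ?_⟩
    rcases cases_mk (L := L) k with ⟨k', rfl⟩ | h'
    · rw [ds_mk hL, len_mk]
      simp only
      rw [norm_mul, norm_inv, Complex.norm_real, Real.norm_eq_abs, abs_of_pos hL', mul_pow]
      have hL1 : (L : ℝ)⁻¹ ≤ 1 := inv_le_one_of_one_le₀ (by exact_mod_cast hL)
      have h1 : 0 ≤ len k' ^ q * ‖V t k' j‖ :=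
        mul_nonneg (pow_nonneg (len_nonneg _) _) (norm_nonneg _)
      calc (L : ℝ) ^ q * len k' ^ q * ((L : ℝ)⁻¹ * ‖V t k' j‖) =
          (L : ℝ) ^ q * ((L : ℝ)⁻¹ * (len k' ^ q * ‖V t k' j‖)) := by ring
        _ ≤ (L : ℝ) ^ q * (1 * (len k' ^ q * ‖V t k' j‖)) := by gcongr
        _ ≤ (L : ℝ) ^ q * |M| := by
          rw [one_mul]
          gcongr
          exact (hM t ht k' j).trans (le_abs_self M)
    · rw [ds_not (V t) h']
      simp only [Pi.zero_apply, norm_zero, mul_zero]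
      positivity
  eqn := by
    intro k hk j t ht
    rcases cases_mk (L := L) k with ⟨k', rfl⟩ | h'
    · have hk' : k' ≠ 0 := by
        rintro rfl
        exact hk (mk_zero L)
      rw [rhs_mk hL]
      have h1 := (h.eqn k' hk' j t ht).const_mul (((L : ℝ) : ℂ)⁻¹)
      refine h1.congr_of_eventuallyEq ?_ ?_
      · refine Eventually.of_forall fun s => ?_
        change ds L (V s) (mk L k') j = ((L : ℝ) : ℂ)⁻¹ * V s k' j
        rw [ds_mk hL]
      · change ds L (V t) (mk L k') j = ((L : ℝ) : ℂ)⁻¹ * V t k' j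
        rw [ds_mk hL]
    · rw [rhs_not m n (V t) h' j]
      have h1 : (fun s => ds L (V s) k j) = fun _ => (0 : ℂ) := by
        funext s
        rw [ds_not (V s) h']
        rfl
      rw [h1]
      exact hasDerivWithinAt_const _ _ _

theorem enstr_ds (V : Coef) : enstr (ds L V) = enstr V := by
  have hL' : (0 : ℝ) < L := by exact_mod_cast hL
  rw [enstr, enstr, ← (mk_inj hL).tsum_eq]
  · refine tsum_congr fun k => ?_
    rw [ds_mk hL, nsq_mk]
    simp only [norm_mul, norm_inv, Complex.norm_real, Real.norm_eq_abs, abs_of_pos hL', mul_pow]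
    rw [← Finset.mul_sum]
    push_cast
    field_simp
  · intro p hp
    rcases cases_mk (L := L) p with ⟨p', rfl⟩ | h
    · exact ⟨p', rfl⟩
    · exfalso
      apply hp
      simp only
      rw [ds_not V h]
      simp

end

/-! ### The bound of the enstrophy -/

theorem sumZ : Summable (fun n : ℤ => (1 + (n : ℝ) ^ 2)⁻¹) := by
  have h1 : Summable (fun n : ℤ => 1 / (n : ℝ) ^ 2) :=
    Real.summable_one_div_int_pow.2 (by norm_num)
  have h2 : Summable (fun n : ℤ => if n = 0 then (1 : ℝ) else 0) :=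
    summable_of_ne_finset_zero (s := {0}) fun b hb => by
      rw [Finset.mem_singleton] at hb
      rw [if_neg hb]
  refine Summable.of_nonneg_of_le (fun n => by positivity) (fun n => ?_) (h1.add h2)
  by_cases hn : n = 0
  · subst hn
    simp
  · rw [if_neg hn, add_zero, one_div]
    have : (0 : ℝ) < (n : ℝ) ^ 2 := by positivity
    gcongr
    linarith

/-- the summable weight -/
noncomputable def wt (k : Z3) : ℝ :=
  (1 + (k 0 : ℝ) ^ 2)⁻¹ * ((1 + (k 1 : ℝ) ^ 2)⁻¹ * (1 + (k 2 : ℝ) ^ 2)⁻¹)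

theorem wt_nonneg (k : Z3) : 0 ≤ wt k := by
  unfold wt
  positivity

/-- the one-dimensional weight -/
noncomputable def w1 (n : ℤ) : ℝ := (1 + (n : ℝ) ^ 2)⁻¹

theorem w1_nonneg (n : ℤ) : 0 ≤ w1 n := by
  unfold w1
  positivity

theorem w1_sum : Summable w1 := sumZ

theorem wt_eq (k : Z3) : wt k = w1 (k 0) * (w1 (k 1) * w1 (k 2)) := rfl

theorem wt_sum : Summable wt := by
  have hf := w1_sum
  have h2 : Summable (fun p : ℤ × ℤ => w1 p.1 * w1 p.2) :=
    hf.mul_of_nonneg hf w1_nonneg w1_nonneg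
  have h3 : Summable (fun p : ℤ × (ℤ × ℤ) => w1 p.1 * (w1 p.2.1 * w1 p.2.2)) :=
    hf.mul_of_nonneg h2 w1_nonneg fun p => mul_nonneg (w1_nonneg _) (w1_nonneg _)
  have he : Function.Injective fun k : Z3 => ((k 0, (k 1, k 2)) : ℤ × (ℤ × ℤ)) := by
    intro a b h
    simp only [Prod.mk.injEq] at h
    funext j
    fin_cases j
    · exact h.1
    · exact h.2.1
    · exact h.2.2
  have h4 := h3.comp_injective he
  refine h4.congr fun k => ?_
  rw [wt_eq]
  rfl

theorem wt_bound {k : Z3} (hk : k ≠ 0) : ((nsq k : ℝ) ^ 3)⁻¹ ≤ 8 * wt k := by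
  have h1 : (1 : ℝ) ≤ nsq k := by exact_mod_cast nsq_pos hk
  have h2 : ∀ j, 1 + (k j : ℝ) ^ 2 ≤ 2 * (nsq k : ℝ) := by
    intro j
    have h3 : (k j) ^ 2 ≤ nsq k :=
      Finset.single_le_sum (f := fun j => k j ^ 2) (fun j _ => sq_nonneg _) (Finset.mem_univ j)
    have h4 : (k j : ℝ) ^ 2 ≤ (nsq k : ℝ) := by exact_mod_cast h3
    linarith
  unfold wt
  have h3 : (1 + (k 0 : ℝ) ^ 2) * ((1 + (k 1 : ℝ) ^ 2) * (1 + (k 2 : ℝ) ^ 2)) ≤
      8 * (nsq k : ℝ) ^ 3 := by
    calc (1 + (k 0 : ℝ) ^ 2) * ((1 + (k 1 : ℝ) ^ 2) * (1 + (k 2 : ℝ) ^ 2)) ≤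
        (2 * (nsq k : ℝ)) * ((2 * (nsq k : ℝ)) * (2 * (nsq k : ℝ))) := by
          gcongr
          · exact h2 0
          · exact h2 1
          · exact h2 2
      _ = 8 * (nsq k : ℝ) ^ 3 := by ring
  rw [← mul_inv, ← mul_inv, ← div_eq_mul_inv, le_div_iff₀ (by positivity),
    inv_mul_le_iff₀ (by positivity)]
  linarith

theorem enstr_le (V : Coef) (M : ℝ) (h : ∀ k j, len k ^ 4 * ‖V k j‖ ≤ M) :
    enstr V ≤ 24 * M ^ 2 * ∑' k, wt k := by
  have hM0 : 0 ≤ M := (mul_nonneg (pow_nonneg (len_nonneg 0) 4) (norm_nonneg _)).trans (h 0 0)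
  have hterm : ∀ k : Z3, (nsq k : ℝ) * ∑ j, ‖V k j‖ ^ 2 ≤ 24 * M ^ 2 * wt k := by
    intro k
    by_cases hk : k = 0
    · subst hk
      have : nsq (0 : Z3) = 0 := by simp [nsq]
      rw [this]
      have := wt_nonneg 0
      simp only [Int.cast_zero, zero_mul]
      positivity
    · have h1 : (1 : ℝ) ≤ nsq k := by exact_mod_cast nsq_pos hk
      have h0 : (0 : ℝ) < nsq k := by linarith
      have h2 : ∀ j, ‖V k j‖ ^ 2 ≤ M ^ 2 * ((nsq k : ℝ) ^ 4)⁻¹ := by
        intro j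
        have h3 := h k j
        have h4 : len k ^ 4 = (nsq k : ℝ) ^ 2 := by
          rw [← len_sq]
          ring
        rw [h4] at h3
        have h5 : ((nsq k : ℝ) ^ 2 * ‖V k j‖) ^ 2 ≤ M ^ 2 :=
          pow_le_pow_left₀ (by positivity) h3 2
        rw [← div_eq_mul_inv, le_div_iff₀ (by positivity)]
        nlinarith
      calc (nsq k : ℝ) * ∑ j, ‖V k j‖ ^ 2 ≤
          (nsq k : ℝ) * ∑ _j : Fin 3, M ^ 2 * ((nsq k : ℝ) ^ 4)⁻¹ := by
            gcongr with j
            exact h2 j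
        _ = 3 * M ^ 2 * ((nsq k : ℝ) ^ 3)⁻¹ := by
            rw [Finset.sum_const, Finset.card_univ, Fintype.card_fin]
            simp only [nsmul_eq_mul]
            push_cast
            field_simp
        _ ≤ 3 * M ^ 2 * (8 * wt k) := by
            gcongr
            exact wt_bound hk
        _ = 24 * M ^ 2 * wt k := by ring
  have hnn : ∀ k : Z3, 0 ≤ (nsq k : ℝ) * ∑ j, ‖V k j‖ ^ 2 := by
    intro k
    have : (0 : ℝ) ≤ nsq k := by exact_mod_cast nsq_nonneg k
    exact mul_nonneg this (Finset.sum_nonneg fun j _ => by positivity)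
  have hs : Summable fun k : Z3 => 24 * M ^ 2 * wt k := wt_sum.mul_left _
  unfold enstr
  rw [← tsum_mul_left]
  exact (Summable.of_nonneg_of_le hnn hterm hs).tsum_le_tsum hterm hs

theorem sol_mono {m n : Z3 → ℝ} {T T' : ℝ} {V : ℝ → Coef} (h : IsSol m n T V) (hT : T' ≤ T) :
    IsSol m n T' V where
  field := fun t ht => h.field t ⟨ht.1, ht.2.trans_le hT⟩
  reg := fun q T'' hT'' => h.reg q T'' (hT''.trans_le hT)
  eqn := fun k hk j t ht => (h.eqn k hk j t ⟨ht.1, ht.2.trans_le hT⟩).mono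
    (Ico_subset_Ico_right hT)

theorem t_DIL : Pool.Agent.Y6.F.S_DIL := by
  intro hU hM q ε R hε
  obtain ⟨L, hLR⟩ : ∃ L : ℕ, max R 1 ≤ L := exists_nat_ge _
  have hL1 : (1 : ℝ) ≤ L := (le_max_right _ _).trans hLR
  have hLR' : R ≤ L := (le_max_left _ _).trans hLR
  have hL0 : (0 : ℝ) < L := by linarith
  have hL : 0 < L := by exact_mod_cast hL0
  obtain ⟨m, n, T, V, hm, hn, hC, hV0, hT, hsol, huniq, hen, hens⟩ :=
    Pool.Agent.Y331.EF.SCALE.t_SCALE hM q (ε / (L : ℝ) ^ q) (by positivity)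
  have hLq : (1 : ℝ) ≤ (L : ℝ) ^ q := one_le_pow₀ hL1
  have hεq : ε / (L : ℝ) ^ q ≤ ε := div_le_self hε.le hLq
  have hm0 : m 0 = 0 := by
    have := hm 0
    rw [neg_zero] at this
    linarith
  have hn0 : n 0 = 0 := by
    have := hn 0
    rw [neg_zero] at this
    linarith
  have hsol' := sol_ds hL hsol
  have hu' := hU (dm L m) (dm L n)
  refine ⟨dm L m, dm L n, T, fun t => ds L (V t), dm_neg hL hm, dm_neg hL hn, ?_, ?_, ?_, hT,
    hsol', ?_, ?_, ?_⟩
  · intro k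
    rcases cases_mk (L := L) k with ⟨k', rfl⟩ | h'
    · rw [dm_mk hL, dm_mk hL, len_mk]
      have h1 : 0 ≤ len k' ^ 16 := pow_nonneg (len_nonneg _) _
      have h2 : len k' ^ 16 ≤ (L * len k') ^ 16 := by
        rw [mul_pow]
        exact le_mul_of_one_le_left h1 (one_le_pow₀ hL1)
      calc |m k'| + |n k'| ≤ ε / (L : ℝ) ^ q * len k' ^ 16 := hC k'
        _ ≤ ε * (L * len k') ^ 16 := mul_le_mul hεq h2 h1 hε.le
    · rw [dm_not m h', dm_not n h', abs_zero, add_zero]
      exact mul_nonneg hε.le (pow_nonneg (len_nonneg _) _)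
  · intro k hk
    rcases cases_mk (L := L) k with ⟨k', rfl⟩ | h'
    · rw [dm_mk hL, dm_mk hL]
      have hk0 : k' = 0 := by
        by_contra hne
        rw [len_mk] at hk
        have := one_le_len hne
        nlinarith
      rw [hk0]
      exact ⟨hm0, hn0⟩
    · exact ⟨dm_not m h', dm_not n h'⟩
  · intro k j
    change len k ^ q * ‖ds L (V 0) k j‖ ≤ ε
    rcases cases_mk (L := L) k with ⟨k', rfl⟩ | h'
    · rw [ds_mk hL, len_mk]
      simp only
      rw [norm_mul, norm_inv, Complex.norm_real, Real.norm_eq_abs, abs_of_pos hL0, mul_pow]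
      have hLi : (L : ℝ)⁻¹ ≤ 1 := inv_le_one_of_one_le₀ hL1
      have h1 : 0 ≤ len k' ^ q * ‖V 0 k' j‖ :=
        mul_nonneg (pow_nonneg (len_nonneg _) _) (norm_nonneg _)
      calc (L : ℝ) ^ q * len k' ^ q * ((L : ℝ)⁻¹ * ‖V 0 k' j‖) =
          (L : ℝ) ^ q * ((L : ℝ)⁻¹ * (len k' ^ q * ‖V 0 k' j‖)) := by ring
        _ ≤ (L : ℝ) ^ q * (1 * (len k' ^ q * ‖V 0 k' j‖)) := by gcongr
        _ ≤ (L : ℝ) ^ q * (ε / (L : ℝ) ^ q) := by
          rw [one_mul]
          gcongr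
          exact hV0 k' j
        _ = ε := by field_simp
    · rw [ds_not (V 0) h']
      simp only [Pi.zero_apply, norm_zero, mul_zero]
      exact hε.le
  · intro T' W hT' hW hW0
    have hmin : 0 < min T T' := lt_min hT hT'
    have heq : ∀ t ∈ Ico 0 (min T T'), W t = ds L (V t) := by
      intro t ht
      exact (hu' (min T T') (dm_neg hL hm) (dm_neg hL hn)).1 W (fun t => ds L (V t))
        (sol_mono hW (min_le_right _ _)) (sol_mono hsol' (min_le_left _ _)) hW0 t ht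
    have hle : T' ≤ T := by
      by_contra hcon
      push Not at hcon
      rw [min_eq_left hcon.le] at heq
      obtain ⟨M, hM⟩ := hW.reg 4 T hcon
      obtain ⟨t, ht, hMt⟩ := hens (24 * M ^ 2 * ∑' k, wt k)
      have h1 := enstr_le (W t) M (hM t ⟨ht.1, ht.2.le⟩)
      rw [heq t ht, enstr_ds hL] at h1
      linarith
    refine ⟨hle, fun t ht => heq t ?_⟩
    rw [min_eq_right hle]
    exact ht
  · intro t ht
    exact (hu' T (dm_neg hL hm) (dm_neg hL hn)).2 (fun t => ds L (V t)) hsol' t ht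
  · intro M
    obtain ⟨t, ht, hMt⟩ := hens M
    refine ⟨t, ht, ?_⟩
    rw [enstr_ds hL]
    exact hMt

end Pool.Agent.Y438.EF.DIL
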